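import Mathlib

set_option autoImplicit false

namespace Pool.Agent.H.MP_87895e_lc

section
variable {S A B : Type} [Fintype S] [Fintype A] [Fintype B] (nx : S → A → B → S)

noncomputable def F (T : Set S) (σ : S → A → ℝ) (τ : S → B → ℝ) (v : S → ℝ) : S → ℝ :=
  T.indicator (fun _ => (1 : ℝ)) +
    Tᶜ.indicator (fun x => ∑ a, ∑ b, σ x a * τ x b * v (nx x a b))

noncomputable def V (T : Set S) (σ : S → A → ℝ) (τ : S → B → ℝ) (s : S) : ℝ :=
  ⨆ n : ℕ, ((F nx T σ τ)^[n] (T.indicator (fun _ => (1 : ℝ)))) s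

def St {C : Type} [Fintype C] (σ : S → C → ℝ) : Prop := (∀ s a, 0 ≤ σ s a) ∧ ∀ s, ∑ a, σ s a = 1

variable {nx} {T : Set S} {σ σ' : S → A → ℝ} {τ τ' : S → B → ℝ}

omit [Fintype S] in
lemma F_mem {x : S → ℝ} {s : S} (h : s ∈ T) : F nx T σ τ x s = 1 := by simp [F, h]

omit [Fintype S] in
lemma F_not {x : S → ℝ} {s : S} (h : s ∉ T) :
    F nx T σ τ x s = ∑ a, ∑ b, σ s a * τ s b * x (nx s a b) := by simp [F, h]

omit [Fintype S] in
lemma sum_mono (h : St σ) (k : St τ) (s : S) {f g : A → B → ℝ} (hfg : ∀ a b, f a b ≤ g a b) :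
    ∑ a, ∑ b, σ s a * τ s b * f a b ≤ ∑ a, ∑ b, σ s a * τ s b * g a b :=
  Finset.sum_le_sum fun a _ => Finset.sum_le_sum fun b _ =>
    mul_le_mul_of_nonneg_left (hfg a b) (mul_nonneg (h.1 s a) (k.1 s b))

omit [Fintype S] in
lemma sum_const (h : St σ) (k : St τ) (s : S) (c : ℝ) :
    ∑ a, ∑ b, σ s a * τ s b * c = c := by
  simp only [mul_assoc, ← Finset.mul_sum, ← Finset.sum_mul, k.2, h.2, one_mul]

omit [Fintype S] in
lemma F_mono (h : St σ) (k : St τ) : Monotone (F nx T σ τ) := by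
  intro x y hxy s
  by_cases hs : s ∈ T
  · rw [F_mem hs, F_mem hs]
  · rw [F_not hs, F_not hs]
    exact sum_mono h k s fun a b => hxy _

omit [Fintype S] in
lemma it_le (h : St σ) (k : St τ) {z : S → ℝ} (hz : 0 ≤ z) (hF : F nx T σ τ z ≤ z) (n : ℕ) :
    (F nx T σ τ)^[n] (T.indicator (fun _ => (1 : ℝ))) ≤ z := by
  induction n with
  | zero =>
    intro s
    by_cases hs : s ∈ T
    · have := hF s
      rw [F_mem hs] at this
      simpa [hs] using this
    · simpa [hs] using hz s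
  | succ n ih => rw [Function.iterate_succ_apply']; exact (F_mono h k ih).trans hF

omit [Fintype S] in
lemma V_le (h : St σ) (k : St τ) {z : S → ℝ} (hz : 0 ≤ z) (hF : F nx T σ τ z ≤ z) (s : S) :
    V nx T σ τ s ≤ z s := ciSup_le fun n => it_le h k hz hF n s

omit [Fintype S] in
lemma F_one (h : St σ) (k : St τ) : F nx T σ τ 1 ≤ 1 := by
  intro s
  by_cases hs : s ∈ T
  · rw [F_mem hs]; rfl
  · rw [F_not hs]; exact (sum_const h k s 1).le

omit [Fintype S] in
lemma V_le_one (h : St σ) (k : St τ) (s : S) : V nx T σ τ s ≤ 1 :=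
  V_le h k (fun _ => zero_le_one) (F_one h k) s

omit [Fintype S] in
lemma V_nonneg (h : St σ) (k : St τ) (s : S) : 0 ≤ V nx T σ τ s := by
  refine le_ciSup_of_le ⟨1, ?_⟩ 0 ?_
  · rintro _ ⟨n, rfl⟩
    exact it_le h k (fun _ => zero_le_one) (F_one h k) n s
  · by_cases hs : s ∈ T <;> simp [hs]

omit [Fintype S] in
lemma V_fix (h : St σ) (k : St τ) (s : S) :
    V nx T σ τ s = F nx T σ τ (V nx T σ τ) s := by
  have hm : Monotone fun n => (F nx T σ τ)^[n] (T.indicator (fun _ => (1 : ℝ))) := by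
    apply Monotone.monotone_iterate_of_le_map (F_mono h k)
    intro s
    by_cases hs : s ∈ T
    · rw [F_mem hs]; simp [hs]
    · rw [F_not hs]
      have := sum_mono h k s (f := fun _ _ => 0)
        (g := fun a b => T.indicator (fun _ => (1 : ℝ)) (nx s a b))
        (fun a b => by by_cases hs : nx s a b ∈ T <;> simp [hs])
      rw [sum_const h k] at this
      simpa [hs] using this
  have ht : ∀ s, Filter.Tendsto (fun n => (F nx T σ τ)^[n] (T.indicator (fun _ => (1 : ℝ))) s)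
      Filter.atTop (nhds (V nx T σ τ s)) := by
    intro s
    refine tendsto_atTop_ciSup (fun a b hab => hm hab s) ⟨1, ?_⟩
    rintro _ ⟨n, rfl⟩
    exact it_le h k (fun _ => zero_le_one) (F_one h k) n s
  have h2 := (ht s).comp (Filter.tendsto_add_atTop_nat 1)
  refine tendsto_nhds_unique h2 ?_
  have : ((fun n => (F nx T σ τ)^[n] (T.indicator (fun _ => (1 : ℝ))) s) ∘ fun a => a + 1) =
      fun n => F nx T σ τ ((F nx T σ τ)^[n] (T.indicator (fun _ => (1 : ℝ)))) s := by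
    funext n; simp only [Function.comp]; rw [Function.iterate_succ_apply']
  rw [this]
  by_cases hs : s ∈ T
  · simp only [F_mem hs]; exact tendsto_const_nhds
  · simp only [F_not hs]
    exact tendsto_finsetSum _ fun a _ => tendsto_finsetSum _ fun b _ => (ht _).const_mul _

omit [Fintype S] in
lemma V_mem (h : St σ) (k : St τ) {s : S} (hs : s ∈ T) : V nx T σ τ s = 1 :=
  (V_fix h k s).trans (F_mem hs)

omit [Fintype S] in
lemma V_not (h : St σ) (k : St τ) {s : S} (hs : s ∉ T) :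
    V nx T σ τ s = ∑ a, ∑ b, σ s a * τ s b * V nx T σ τ (nx s a b) :=
  (V_fix h k s).trans (F_not hs)

omit [Fintype S] in
/-- The value vanishes on a closed set of states that avoids the target. -/
lemma V_trap (h : St σ) (k : St τ) (M : Set S) (hT : ∀ t ∈ M, t ∉ T)
    (hM : ∀ t ∈ M, ∀ a b, σ t a * τ t b = 0 ∨ nx t a b ∈ M) {s : S} (hs : s ∈ M) :
    V nx T σ τ s ≤ 0 := by
  classical
  have := V_le (nx := nx) (T := T) h k (z := fun t => if t ∈ M then 0 else 1)
    (fun t => by dsimp; split_ifs <;> norm_num) (fun t => by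
      by_cases ht : t ∈ T
      · rw [F_mem ht]
        have : t ∉ M := fun hm => hT t hm ht
        simp [this]
      · rw [F_not ht]
        by_cases hm : t ∈ M
        · simp only [hm, if_true]
          refine le_of_eq (Finset.sum_eq_zero fun a _ => Finset.sum_eq_zero fun b _ => ?_)
          rcases hM t hm a b with h0 | h0
          · rw [h0, zero_mul]
          · simp [h0]
        · simp only [hm, if_false]
          refine (sum_mono h k t (g := fun _ _ => 1) fun a b => ?_).trans (sum_const h k t 1).le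
          split_ifs <;> norm_num) s
  simpa [hs] using this

/-- Policy improvement at one state. -/
lemma improve (h : St σ) (k : St τ) (h' : St σ') (k' : St τ') (s0 : S)
    (e1 : ∀ s, s ≠ s0 → σ' s = σ s) (e2 : ∀ s, s ≠ s0 → τ' s = τ s)
    (hQ : V nx T σ τ s0 < ∑ a, ∑ b, σ' s0 a * τ' s0 b * V nx T σ τ (nx s0 a b)) (s : S) :
    V nx T σ τ s ≤ V nx T σ' τ' s := by
  haveI : Nonempty S := ⟨s⟩
  obtain ⟨m, hm⟩ := Finite.exists_max fun t => V nx T σ τ t - V nx T σ' τ' t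
  by_contra hc
  have hpos : 0 < V nx T σ τ m - V nx T σ' τ' m := by have := hm s; push Not at hc; linarith
  set c := V nx T σ τ m - V nx T σ' τ' m with hcdef
  have hT : ∀ t ∈ {t | V nx T σ τ t - V nx T σ' τ' t = c}, t ∉ T := by
    intro t ht hT
    have : V nx T σ τ t - V nx T σ' τ' t = c := ht
    rw [V_mem h k hT, V_mem h' k' hT] at this
    linarith
  have key : ∀ t, ∑ a, ∑ b, σ' t a * τ' t b * (c - (V nx T σ τ (nx t a b) - V nx T σ' τ' (nx t a b)))
      = c - ∑ a, ∑ b, σ' t a * τ' t b * V nx T σ τ (nx t a b)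
        + ∑ a, ∑ b, σ' t a * τ' t b * V nx T σ' τ' (nx t a b) := by
    intro t
    conv_rhs => rw [← sum_const h' k' t c]
    simp only [← Finset.sum_sub_distrib, ← Finset.sum_add_distrib]
    exact Finset.sum_congr rfl fun a _ => Finset.sum_congr rfl fun b _ => by ring
  have hnn : ∀ t a b, 0 ≤ σ' t a * τ' t b *
      (c - (V nx T σ τ (nx t a b) - V nx T σ' τ' (nx t a b))) := fun t a b =>
    mul_nonneg (mul_nonneg (h'.1 t a) (k'.1 t b)) (sub_nonneg.2 (hm _))
  have := V_trap (nx := nx) (T := T) h k {t | V nx T σ τ t - V nx T σ' τ' t = c} hT (s := m)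
    (fun t ht a b => ?_) rfl
  · have := V_nonneg (nx := nx) (T := T) h' k' m
    linarith
  · have hc' : V nx T σ τ t - V nx T σ' τ' t = c := ht
    have h1 := V_not (nx := nx) h' k' (hT t ht)
    have h2 := key t
    have h3 : 0 ≤ ∑ a, ∑ b, σ' t a * τ' t b *
      (c - (V nx T σ τ (nx t a b) - V nx T σ' τ' (nx t a b))) :=
      Finset.sum_nonneg fun a _ => Finset.sum_nonneg fun b _ => hnn t a b
    by_cases ht0 : t = s0
    · subst ht0; linarith
    · have h4 := V_not (nx := nx) h k (hT t ht)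
      rw [← e1 t ht0, ← e2 t ht0] at h4 ⊢
      have h5 : ∑ a, ∑ b, σ' t a * τ' t b *
        (c - (V nx T σ τ (nx t a b) - V nx T σ' τ' (nx t a b))) = 0 := by linarith
      rw [Finset.sum_eq_zero_iff_of_nonneg
        (fun a _ => Finset.sum_nonneg fun b _ => hnn t a b)] at h5
      have h6 := h5 a (Finset.mem_univ _)
      rw [Finset.sum_eq_zero_iff_of_nonneg (fun b _ => hnn t a b)] at h6
      rcases mul_eq_zero.1 (h6 b (Finset.mem_univ _)) with h7 | h7
      · exact Or.inl h7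
      · right; show _ = c; linarith

open Classical in
noncomputable def dev {C : Type} (σ : S → C → ℝ) (s0 : S) (a0 : C) : S → C → ℝ :=
  fun s a => if s = s0 then (if a = a0 then 1 else 0) else σ s a

omit [Fintype S] in
lemma dev_st {C : Type} [Fintype C] {σ : S → C → ℝ} (h : St σ) (s0 : S) (a0 : C) :
    St (dev σ s0 a0) := by
  refine ⟨fun s a => ?_, fun s => ?_⟩
  · unfold dev; split_ifs
    · norm_num
    · norm_num
    · exact h.1 s a
  · unfold dev; split_ifs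
    · rw [Finset.sum_eq_single a0]
      · simp
      · intro b _ hb; simp [hb]
      · simp
    · exact h.2 s

omit [Fintype S] in
lemma dev_ne {C : Type} (σ : S → C → ℝ) {s0 : S} (a0 : C) (s : S) (hs : s ≠ s0) :
    dev σ s0 a0 s = σ s := by funext a; simp [dev, hs]

omit [Fintype S] in
lemma dev_sum1 (σ : S → A → ℝ) (s0 : S) (a0 : A) (f : A → B → ℝ) :
    ∑ a, ∑ b, dev σ s0 a0 s0 a * τ s0 b * f a b = ∑ b, τ s0 b * f a0 b := by
  rw [Finset.sum_eq_single a0]
  · simp [dev]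
  · intro a _ ha; simp [dev, ha]
  · simp

omit [Fintype S] in
lemma dev_sum2 (τ : S → B → ℝ) (s0 : S) (b0 : B) (f : A → B → ℝ) :
    ∑ a, ∑ b, σ s0 a * dev τ s0 b0 s0 b * f a b = ∑ a, σ s0 a * f a b0 := by
  refine Finset.sum_congr rfl fun a _ => ?_
  rw [Finset.sum_eq_single b0]
  · simp [dev]
  · intro b _ hb; simp [dev, hb]
  · simp

lemma step1 (h : St σ) (k : St τ) {ε : ℝ} (hε : 0 ≤ ε) {s : S} (hs : s ∉ T)
    (H : ∀ σ', St σ' → V nx T σ' τ s ≤ V nx T σ τ s + ε) (a0 : A) :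
    ∑ b, τ s b * V nx T σ τ (nx s a0 b) ≤ V nx T σ τ s + ε := by
  by_contra hc
  push Not at hc
  have h' := dev_st h s a0
  have im := improve (nx := nx) (T := T) h k h' k s (dev_ne σ a0) (fun _ _ => rfl)
    (by rw [dev_sum1]; linarith)
  have h1 := V_not (nx := nx) h' k hs
  have h2 := sum_mono h' k s (fun a b => im (nx s a b))
  rw [dev_sum1] at h2
  have := H _ h'
  linarith

lemma step2 (h : St σ) (k : St τ) {ε : ℝ} (hε : 0 ≤ ε) {s : S} (hs : s ∉ T)
    (H : ∀ τ', St τ' → V nx T σ τ' s ≤ V nx T σ τ s + ε) (b0 : B) :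
    ∑ a, σ s a * V nx T σ τ (nx s a b0) ≤ V nx T σ τ s + ε := by
  by_contra hc
  push Not at hc
  have k' := dev_st k s b0
  have im := improve (nx := nx) (T := T) h k h k' s (fun _ _ => rfl) (dev_ne τ b0)
    (by rw [dev_sum2]; linarith)
  have h1 := V_not (nx := nx) h k' hs
  have h2 := sum_mono h k' s (fun a b => im (nx s a b))
  rw [dev_sum2] at h2
  have := H _ k'
  linarith
end

lemma shapley {x0 x1 x2 y0 y1 y2 g1 g2 v1 v2 : ℝ} (a0 : 0 ≤ x0) (a1 : 0 ≤ x1) (a2 : 0 ≤ x2)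
    (b0 : 0 ≤ y0) (b1 : 0 ≤ y1) (b2 : 0 ≤ y2) (sx : x0 + x1 + x2 = 1) (sy : y0 + y1 + y2 = 1)
    (p1 : 0 < g1) (p2 : 0 ≤ g2) (p3 : g2 < 1)
    (e1 : v1 = g1 * (x0 * y0 + x1 * y1 + x2 * y2))
    (e2 : v2 = g2 * (x0 * y0 + x1 * y1 + x2 * y2) + (x0 * y1 + x1 * y2 + x2 * y0))
    (c0 : g1 * y0 ≤ v1) (c1 : g1 * y1 ≤ v1) (c2 : g1 * y2 ≤ v1)
    (d0 : g2 * x0 + x2 ≤ v2) (d1 : g2 * x1 + x0 ≤ v2) (d2 : g2 * x2 + x1 ≤ v2) :
    v1 = g1 / 3 ∧ v2 = (g2 + 1) / 3 := by
  have hv : g1 / 3 ≤ v1 := by nlinarith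
  have s1 : x0 * (v1 - g1 * y0) + x1 * (v1 - g1 * y1) + x2 * (v1 - g1 * y2) = 0 := by
    linear_combination e1 + v1 * sx
  have s2 : y0 * (v2 - (g2 * x0 + x2)) + y1 * (v2 - (g2 * x1 + x0)) + y2 * (v2 - (g2 * x2 + x1)) = 0 := by
    linear_combination e2 + v2 * sy
  have m0 := mul_nonneg a0 (sub_nonneg.2 c0)
  have m1 := mul_nonneg a1 (sub_nonneg.2 c1)
  have m2 := mul_nonneg a2 (sub_nonneg.2 c2)
  have n0 := mul_nonneg b0 (sub_nonneg.2 d0)
  have n1 := mul_nonneg b1 (sub_nonneg.2 d1)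
  have n2 := mul_nonneg b2 (sub_nonneg.2 d2)
  have f : ∀ x y : ℝ, 0 < x → x * (v1 - g1 * y) = 0 → v1 = g1 * y ∧ 0 < y := by
    intro x y hx h
    have := (mul_eq_zero.1 h).resolve_left hx.ne'
    refine ⟨by linarith, ?_⟩
    by_contra hy
    push Not at hy
    nlinarith
  have g : ∀ y c : ℝ, 0 < y → y * (v2 - c) = 0 → v2 = c := by
    intro y c hy h
    have := (mul_eq_zero.1 h).resolve_left hy.ne'
    linarith
  have t0 : 0 < x0 → 0 < x2 := fun hx => by
    have := g _ _ (f _ _ hx (by linarith)).2 (by linarith : y0 * (v2 - (g2 * x0 + x2)) = 0)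
    nlinarith [mul_nonneg p2 a1, mul_pos (sub_pos.2 p3) hx]
  have t1 : 0 < x1 → 0 < x0 := fun hx => by
    have := g _ _ (f _ _ hx (by linarith)).2 (by linarith : y1 * (v2 - (g2 * x1 + x0)) = 0)
    nlinarith [mul_nonneg p2 a2, mul_pos (sub_pos.2 p3) hx]
  have t2 : 0 < x2 → 0 < x1 := fun hx => by
    have := g _ _ (f _ _ hx (by linarith)).2 (by linarith : y2 * (v2 - (g2 * x2 + x1)) = 0)
    nlinarith [mul_nonneg p2 a0, mul_pos (sub_pos.2 p3) hx]
  have x0p : 0 < x0 := by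
    rcases a0.eq_or_lt with h0 | h0
    · rcases a1.eq_or_lt with h1 | h1
      · exact t1 (t2 (by linarith))
      · exact t1 h1
    · exact h0
  have x2p := t0 x0p
  have x1p := t2 x2p
  obtain ⟨u0, w0⟩ := f _ y0 x0p (by linarith)
  obtain ⟨u1, w1⟩ := f _ y1 x1p (by linarith)
  obtain ⟨u2, w2⟩ := f _ y2 x2p (by linarith)
  have q0 := g _ _ w0 (by linarith : y0 * (v2 - (g2 * x0 + x2)) = 0)
  have q1 := g _ _ w1 (by linarith : y1 * (v2 - (g2 * x1 + x0)) = 0)
  have q2 := g _ _ w2 (by linarith : y2 * (v2 - (g2 * x2 + x1)) = 0)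
  constructor
  · linear_combination (u0 + u1 + u2) / 3 + g1 / 3 * sy
  · linear_combination (q0 + q1 + q2) / 3 + (g2 + 1) / 3 * sx

end Pool.Agent.H.MP_87895e_lc
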