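import Pool.Agent.H.MP_87895e_lc.A

set_option autoImplicit false

namespace Pool.Agent.H.MP_87895e_lc

def sh (i j : ℕ) (x y : Fin 13) : Fin 13 :=
  if min j 2 = min i 2 then x else if min j 2 = (min i 2 + 1) % 3 then y else 12

/-- States: 0,1 core; 2,3 choices; 4,5 Shapley gadgets; 6,7 guessing gadgets; 8,9 constant-sum
gadgets; 10, 11, 12 absorbing (targets of player 1, of player 2, of nobody). -/
def nx (s : Fin 13) (a b : Fin 5) : Fin 13 :=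
  if s = 0 then (if a = 0 then 2 else 1)
  else if s = 1 then (if b = 0 then 3 else 0)
  else if s = 2 then (if b = 0 then 4 else 9)
  else if s = 3 then (if a = 0 then 5 else 8)
  else if s = 4 then sh a.val b.val 6 11
  else if s = 5 then sh b.val a.val 7 10
  else if s = 6 then (if a = b then 10 else 0)
  else if s = 7 then (if a = b then 11 else 1)
  else if s = 8 then (if (b.val + 5 - a.val) % 5 < 2 then 10 else 11)
  else if s = 9 then (if (a.val + 5 - b.val) % 5 < 2 then 11 else 10)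
  else s

def tb : Fin 13 → Fin 5 → Fin 5 → Fin 13 :=
  ![![![2,2,2,2,2],![1,1,1,1,1],![1,1,1,1,1],![1,1,1,1,1],![1,1,1,1,1]],
    ![![3,0,0,0,0],![3,0,0,0,0],![3,0,0,0,0],![3,0,0,0,0],![3,0,0,0,0]],
    ![![4,9,9,9,9],![4,9,9,9,9],![4,9,9,9,9],![4,9,9,9,9],![4,9,9,9,9]],
    ![![5,5,5,5,5],![8,8,8,8,8],![8,8,8,8,8],![8,8,8,8,8],![8,8,8,8,8]],
    ![![6,11,12,12,12],![12,6,11,11,11],![11,12,6,6,6],![11,12,6,6,6],![11,12,6,6,6]],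
    ![![7,12,10,10,10],![10,7,12,12,12],![12,10,7,7,7],![12,10,7,7,7],![12,10,7,7,7]],
    ![![10,0,0,0,0],![0,10,0,0,0],![0,0,10,0,0],![0,0,0,10,0],![0,0,0,0,10]],
    ![![11,1,1,1,1],![1,11,1,1,1],![1,1,11,1,1],![1,1,1,11,1],![1,1,1,1,11]],
    ![![10,10,11,11,11],![11,10,10,11,11],![11,11,10,10,11],![11,11,11,10,10],![10,11,11,11,10]],
    ![![11,10,10,10,11],![11,11,10,10,10],![10,11,11,10,10],![10,10,11,11,10],![10,10,10,11,11]],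
    fun _ _ => 10, fun _ _ => 11, fun _ _ => 12]

lemma nx_tb : ∀ s a b, nx s a b = tb s a b := by decide

structure Lim (σ τ : Fin 13 → Fin 5 → ℝ) (v w : Fin 13 → ℝ) (p q ε : ℝ) : Prop where
  s0 : ∀ s a, 0 ≤ σ s a
  s1 : ∀ s, ∑ a, σ s a = 1
  t0 : ∀ s a, 0 ≤ τ s a
  t1 : ∀ s, ∑ a, τ s a = 1
  v0 : ∀ s, 0 ≤ v s
  w0 : ∀ s, 0 ≤ w s
  vw : ∀ s, v s + w s ≤ 1
  v10 : v 10 = 1
  w11 : w 11 = 1
  v12 : v 12 = 0
  w12 : w 12 = 0
  fv : ∀ s, v s = ∑ a, ∑ b, σ s a * τ s b * v (nx s a b)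
  fw : ∀ s, w s = ∑ a, ∑ b, σ s a * τ s b * w (nx s a b)
  ov : ∀ s a, ∑ b, τ s b * v (nx s a b) ≤ v s + ε
  ow : ∀ s b, ∑ a, σ s a * w (nx s a b) ≤ w s + ε
  q0 : 0 ≤ q
  qp : q ≤ p
  p1 : p ≤ 1
  cs : v 0 = 0 ∨ ((v 0 = p * v 2 + (1 - p) * v 3 ∧ w 0 = p * w 2 + (1 - p) * w 3 ∧
    v 1 = q * v 2 + (1 - q) * v 3 ∧ w 1 = q * w 2 + (1 - q) * w 3) ∧
    (q = 1 ∨ p = 0 ∨ (v 3 ≤ v 0 + ε ∧ w 2 ≤ w 1 + ε)))

section
variable {σ τ : Fin 13 → Fin 5 → ℝ} {v w : Fin 13 → ℝ} {p q : ℝ}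

lemma Lim.ss (L : Lim σ τ v w p q 0) (s : Fin 13) :
    σ s 0 + σ s 1 + σ s 2 + σ s 3 + σ s 4 = 1 ∧ τ s 0 + τ s 1 + τ s 2 + τ s 3 + τ s 4 = 1 := by
  have h := L.s1 s
  have k := L.t1 s
  rw [Fin.sum_univ_five] at h k
  exact ⟨h, k⟩

lemma Lim.tm (L : Lim σ τ v w p q 0) : v 11 = 0 ∧ w 10 = 0 := by
  have := L.vw 10; have := L.vw 11; have := L.v10; have := L.w11
  have := L.v0 11; have := L.w0 10
  constructor <;> linarith

lemma Lim.g89 (L : Lim σ τ v w p q 0) :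
    v 8 = 2 / 5 ∧ w 8 = 3 / 5 ∧ v 9 = 3 / 5 ∧ w 9 = 2 / 5 := by
  obtain ⟨h1, h2⟩ := L.tm
  have a := fun i => L.ov 8 i
  have b := fun i => L.ow 8 i
  have c := fun i => L.ov 9 i
  have d := fun i => L.ow 9 i
  have a0 := a 0; have a1 := a 1; have a2 := a 2; have a3 := a 3; have a4 := a 4
  have b0 := b 0; have b1 := b 1; have b2 := b 2; have b3 := b 3; have b4 := b 4
  have c0 := c 0; have c1 := c 1; have c2 := c 2; have c3 := c 3; have c4 := c 4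
  have d0 := d 0; have d1 := d 1; have d2 := d 2; have d3 := d 3; have d4 := d 4
  simp [Fin.sum_univ_five, nx_tb, tb, h1, h2, L.v10, L.w11] at a0 a1 a2 a3 a4 b0 b1 b2 b3 b4 c0 c1 c2 c3 c4 d0 d1 d2 d3 d4
  obtain ⟨e1, e2⟩ := L.ss 8
  obtain ⟨e3, e4⟩ := L.ss 9
  have := L.vw 8; have := L.vw 9
  refine ⟨?_, ?_, ?_, ?_⟩ <;> linarith

lemma Lim.g6 (L : Lim σ τ v w p q 0) : ∃ θ : ℝ, v 6 = θ + (1 - θ) * v 0 ∧ w 6 = (1 - θ) * w 0 ∧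
    1 / 5 + 4 / 5 * v 0 ≤ v 6 ∧ 4 / 5 * w 0 ≤ w 6 := by
  obtain ⟨h1, h2⟩ := L.tm
  obtain ⟨e1, e2⟩ := L.ss 6
  have a := fun i => L.ov 6 i
  have b := fun i => L.ow 6 i
  have a0 := a 0; have a1 := a 1; have a2 := a 2; have a3 := a 3; have a4 := a 4
  have b0 := b 0; have b1 := b 1; have b2 := b 2; have b3 := b 3; have b4 := b 4
  have f := L.fv 6
  have g := L.fw 6
  simp [Fin.sum_univ_five, nx_tb, tb, h1, h2, L.v10, L.w11] at a0 a1 a2 a3 a4 b0 b1 b2 b3 b4 f g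
  refine ⟨σ 6 0 * τ 6 0 + σ 6 1 * τ 6 1 + σ 6 2 * τ 6 2 + σ 6 3 * τ 6 3 + σ 6 4 * τ 6 4,
    ?_, ?_, ?_, ?_⟩
  · linear_combination f + v 0 * (τ 6 0 + τ 6 1 + τ 6 2 + τ 6 3 + τ 6 4) * e1 + v 0 * e2
  · linear_combination g + w 0 * (τ 6 0 + τ 6 1 + τ 6 2 + τ 6 3 + τ 6 4) * e1 + w 0 * e2
  · have : (τ 6 0 + τ 6 1 + τ 6 2 + τ 6 3 + τ 6 4) * v 0 = v 0 := by rw [e2, one_mul]
    linarith
  · have : (σ 6 0 + σ 6 1 + σ 6 2 + σ 6 3 + σ 6 4) * w 0 = w 0 := by rw [e1, one_mul]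
    linarith

lemma Lim.g7 (L : Lim σ τ v w p q 0) : ∃ θ : ℝ, w 7 = θ + (1 - θ) * w 1 ∧ v 7 = (1 - θ) * v 1 ∧
    1 / 5 + 4 / 5 * w 1 ≤ w 7 ∧ 4 / 5 * v 1 ≤ v 7 := by
  obtain ⟨h1, h2⟩ := L.tm
  obtain ⟨e1, e2⟩ := L.ss 7
  have a := fun i => L.ov 7 i
  have b := fun i => L.ow 7 i
  have a0 := a 0; have a1 := a 1; have a2 := a 2; have a3 := a 3; have a4 := a 4
  have b0 := b 0; have b1 := b 1; have b2 := b 2; have b3 := b 3; have b4 := b 4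
  have f := L.fv 7
  have g := L.fw 7
  simp [Fin.sum_univ_five, nx_tb, tb, h1, h2, L.v10, L.w11] at a0 a1 a2 a3 a4 b0 b1 b2 b3 b4 f g
  refine ⟨σ 7 0 * τ 7 0 + σ 7 1 * τ 7 1 + σ 7 2 * τ 7 2 + σ 7 3 * τ 7 3 + σ 7 4 * τ 7 4,
    ?_, ?_, ?_, ?_⟩
  · linear_combination g + w 1 * (τ 7 0 + τ 7 1 + τ 7 2 + τ 7 3 + τ 7 4) * e1 + w 1 * e2
  · linear_combination f + v 1 * (τ 7 0 + τ 7 1 + τ 7 2 + τ 7 3 + τ 7 4) * e1 + v 1 * e2
  · have : (σ 7 0 + σ 7 1 + σ 7 2 + σ 7 3 + σ 7 4) * w 1 = w 1 := by rw [e1, one_mul]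
    linarith
  · have : (τ 7 0 + τ 7 1 + τ 7 2 + τ 7 3 + τ 7 4) * v 1 = v 1 := by rw [e2, one_mul]
    linarith

lemma Lim.g4 (L : Lim σ τ v w p q 0) : v 4 = v 6 / 3 ∧ w 4 = (w 6 + 1) / 3 := by
  obtain ⟨h1, h2⟩ := L.tm
  obtain ⟨e1, e2⟩ := L.ss 4
  obtain ⟨θ, -, -, l1, -⟩ := L.g6
  have a := fun i => L.ov 4 i
  have b := fun i => L.ow 4 i
  have a0 := a 0; have a1 := a 1; have a2 := a 2
  have b0 := b 0; have b1 := b 1; have b2 := b 2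
  have f := L.fv 4
  have g := L.fw 4
  simp [Fin.sum_univ_five, nx_tb, tb, h1, L.w11, L.v12, L.w12] at a0 a1 a2 b0 b1 b2 f g
  have := L.v0 0; have := L.vw 6
  have := L.s0 4 2; have := L.s0 4 3; have := L.s0 4 4
  have := L.t0 4 2; have := L.t0 4 3; have := L.t0 4 4
  exact shapley (x0 := σ 4 0) (x1 := σ 4 1) (x2 := σ 4 2 + σ 4 3 + σ 4 4) (y0 := τ 4 0)
    (y1 := τ 4 1) (y2 := τ 4 2 + τ 4 3 + τ 4 4) (L.s0 _ _) (L.s0 _ _) (by linarith) (L.t0 _ _)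
    (L.t0 _ _) (by linarith) (by linarith) (by linarith) (by linarith) (L.w0 _) (by linarith)
    (by linear_combination f) (by linear_combination g) (by linarith) (by linarith) (by linarith)
    (by linarith) (by linarith) (by linarith)

lemma Lim.g5 (L : Lim σ τ v w p q 0) : w 5 = w 7 / 3 ∧ v 5 = (v 7 + 1) / 3 := by
  obtain ⟨h1, h2⟩ := L.tm
  obtain ⟨e1, e2⟩ := L.ss 5
  obtain ⟨θ, -, -, l1, -⟩ := L.g7
  have a := fun i => L.ov 5 i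
  have b := fun i => L.ow 5 i
  have a0 := a 0; have a1 := a 1; have a2 := a 2
  have b0 := b 0; have b1 := b 1; have b2 := b 2
  have f := L.fv 5
  have g := L.fw 5
  simp [Fin.sum_univ_five, nx_tb, tb, h2, L.v10, L.v12, L.w12] at a0 a1 a2 b0 b1 b2 f g
  have := L.w0 1; have := L.vw 7
  have := L.s0 5 2; have := L.s0 5 3; have := L.s0 5 4
  have := L.t0 5 2; have := L.t0 5 3; have := L.t0 5 4
  exact shapley (x0 := τ 5 0) (x1 := τ 5 1) (x2 := τ 5 2 + τ 5 3 + τ 5 4) (y0 := σ 5 0)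
    (y1 := σ 5 1) (y2 := σ 5 2 + σ 5 3 + σ 5 4) (L.t0 _ _) (L.t0 _ _) (by linarith) (L.s0 _ _)
    (L.s0 _ _) (by linarith) (by linarith) (by linarith) (by linarith) (L.v0 _) (by linarith)
    (by linear_combination g) (by linear_combination f) (by linarith) (by linarith) (by linarith)
    (by linarith) (by linarith) (by linarith)

lemma Lim.g2 (L : Lim σ τ v w p q 0) : ∃ b : ℝ, 0 ≤ b ∧ b ≤ 1 ∧ v 2 = b * v 4 + (1 - b) * v 9 ∧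
    w 2 = b * w 4 + (1 - b) * w 9 ∧ w 4 ≤ w 2 ∧ w 9 ≤ w 2 := by
  obtain ⟨e1, e2⟩ := L.ss 2
  have b0 := L.ow 2 0; have b1 := L.ow 2 1
  have f := L.fv 2
  have g := L.fw 2
  simp [Fin.sum_univ_five, nx_tb, tb] at b0 b1 f g
  have := L.t0 2 1; have := L.t0 2 2; have := L.t0 2 3; have := L.t0 2 4
  refine ⟨τ 2 0, L.t0 _ _, by linarith, ?_, ?_, ?_, ?_⟩
  · linear_combination f + (τ 2 0 * v 4 + (τ 2 1 + τ 2 2 + τ 2 3 + τ 2 4) * v 9) * e1 + v 9 * e2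
  · linear_combination g + (τ 2 0 * w 4 + (τ 2 1 + τ 2 2 + τ 2 3 + τ 2 4) * w 9) * e1 + w 9 * e2
  · linear_combination b0 - w 4 * e1
  · linear_combination b1 - w 9 * e1

lemma Lim.g3 (L : Lim σ τ v w p q 0) : ∃ b : ℝ, 0 ≤ b ∧ b ≤ 1 ∧ w 3 = b * w 5 + (1 - b) * w 8 ∧
    v 3 = b * v 5 + (1 - b) * v 8 ∧ v 5 ≤ v 3 ∧ v 8 ≤ v 3 := by
  obtain ⟨e1, e2⟩ := L.ss 3
  have b0 := L.ov 3 0; have b1 := L.ov 3 1
  have f := L.fv 3
  have g := L.fw 3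
  simp [Fin.sum_univ_five, nx_tb, tb] at b0 b1 f g
  have := L.s0 3 1; have := L.s0 3 2; have := L.s0 3 3; have := L.s0 3 4
  refine ⟨σ 3 0, L.s0 _ _, by linarith, ?_, ?_, ?_, ?_⟩
  · linear_combination g + (σ 3 0 * w 5 + (σ 3 1 + σ 3 2 + σ 3 3 + σ 3 4) * w 8) * e2 + w 8 * e1
  · linear_combination f + (σ 3 0 * v 5 + (σ 3 1 + σ 3 2 + σ 3 3 + σ 3 4) * v 8) * e2 + v 8 * e1
  · linear_combination b0 - v 5 * e2
  · linear_combination b1 - v 8 * e2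

lemma Lim.g01 (L : Lim σ τ v w p q 0) : v 2 ≤ v 0 ∧ w 3 ≤ w 1 := by
  obtain ⟨-, e2⟩ := L.ss 0
  obtain ⟨e1, -⟩ := L.ss 1
  have a := L.ov 0 0
  have b := L.ow 1 0
  simp [Fin.sum_univ_five, nx_tb, tb] at a b
  constructor
  · linear_combination a - v 2 * e2
  · linear_combination b - w 3 * e1

lemma aux {u1 u2 e1 e2 b : ℝ} (b1 : b ≤ 1) (h1 : u1 = b * e1 + (1 - b) * (3 / 5))
    (h2 : u2 = b * e2 + (1 - b) * (2 / 5)) (h3 : e2 ≤ u2) (h4 : 2 / 5 ≤ u2)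
    (k1 : e1 = 1 / 15 + 4 / 15 * u1) (k2 : e2 = 1 / 3 + 4 / 15 * u2) :
    u1 = 1 / 11 ∧ u2 = 5 / 11 := by
  have : (1 - b) * (u2 - 2 / 5) ≤ 0 := by nlinarith
  have hb : b = 1 := by nlinarith
  subst hb
  constructor <;> linarith

lemma cvx {c x y t z : ℝ} (t0 : 0 ≤ t) (t1 : t ≤ 1) (hx : c ≤ x) (hy : c ≤ y)
    (h : z = t * x + (1 - t) * y) : c ≤ z := by nlinarith

lemma fifth {θ x y : ℝ} (hx : x < 1) (hy : 0 < y) (h1 : 1 / 5 + 4 / 5 * x ≤ θ + (1 - θ) * x)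
    (h2 : 4 / 5 * y ≤ (1 - θ) * y) : θ = 1 / 5 := by
  apply le_antisymm <;> nlinarith

lemma zer {a x y z : ℝ} (a0 : 0 ≤ a) (h : z = a * x + (1 - a) * y) (h1 : y ≤ z) (h2 : x < y) :
    a = 0 := by nlinarith

lemma mid {p x y z : ℝ} (p0 : 0 < p) (p1 : p < 1) (h : z = p * x + (1 - p) * y) (h1 : x ≤ z)
    (h2 : y ≤ z) : x = y := by apply le_antisymm <;> nlinarith

lemma Lim.false (L : Lim σ τ v w p q 0) : False := by
  obtain ⟨c1, c2, c3, c4⟩ := L.g89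
  obtain ⟨θ, d1, d2, d3, d4⟩ := L.g6
  obtain ⟨η, e1, e2, e3, e4⟩ := L.g7
  obtain ⟨f1, f2⟩ := L.g4
  obtain ⟨g1, g2⟩ := L.g5
  obtain ⟨b, b0, b1, h1, h2, h3, h4⟩ := L.g2
  obtain ⟨a, a0, a1, k1, k2, k3, k4⟩ := L.g3
  obtain ⟨l1, l2⟩ := L.g01
  rw [c3] at h1; rw [c4] at h2 h4; rw [c2] at k1; rw [c1] at k2 k4
  have := L.v0 0; have := L.w0 1; have := L.vw 0; have := L.vw 1
  have q0 := L.q0; have qp := L.qp; have p1 := L.p1
  have v2 : 1 / 15 ≤ v 2 := cvx b0 b1 (by linarith) (by norm_num) h1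
  have w3 : 1 / 15 ≤ w 3 := cvx a0 a1 (by linarith) (by norm_num) k1
  rcases L.cs with h | ⟨⟨m1, m2, m3, m4⟩, h⟩
  · linarith
  have w0 : 1 / 15 ≤ w 0 := cvx (q0.trans qp) p1 (by linarith) w3 m2
  have v1 : 1 / 15 ≤ v 1 := cvx q0 (qp.trans p1) v2 (by linarith) m3
  have t1 : θ = 1 / 5 := fifth (x := v 0) (y := w 0) (by linarith) (by linarith) (d1 ▸ d3) (d2 ▸ d4)
  have t2 : η = 1 / 5 := fifth (x := w 1) (y := v 1) (by linarith) (by linarith) (e1 ▸ e3) (e2 ▸ e4)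
  subst t1 t2
  have A : v 0 = v 2 → w 0 = w 2 → v 2 = 1 / 11 ∧ w 2 = 5 / 11 := fun i j =>
    aux b1 h1 h2 h3 h4 (by linarith) (by linarith)
  have B : w 1 = w 3 → v 1 = v 3 → w 3 = 1 / 11 ∧ v 3 = 5 / 11 := fun i j =>
    aux a1 k1 k2 k3 k4 (by linarith) (by linarith)
  rcases h with h | h | ⟨h, h'⟩
  · have hp : p = 1 := by linarith
    subst h hp
    obtain ⟨x, y⟩ := A (by linarith) (by linarith)
    have : a = 0 := zer a0 k2 k4 (by linarith)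
    subst this
    linarith
  · have hq : q = 0 := by linarith
    subst h hq
    obtain ⟨x, y⟩ := B (by linarith) (by linarith)
    have : b = 0 := zer b0 h2 h4 (by linarith)
    subst this
    linarith
  · rcases p1.eq_or_lt with hp | hp
    · subst hp
      obtain ⟨x, y⟩ := A (by linarith) (by linarith)
      linarith
    rcases q0.eq_or_lt with hq | hq
    · subst hq
      obtain ⟨x, y⟩ := B (by linarith) (by linarith)
      linarith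
    have i1 : v 2 = v 3 := mid (by linarith) hp m1 l1 (by linarith)
    have i2 : w 2 = w 3 := mid hq (by linarith) m4 (by linarith) l2
    obtain ⟨x, y⟩ := A (by rw [m1, i1]; ring) (by rw [m2, i2]; ring)
    linarith
end

end Pool.Agent.H.MP_87895e_lc
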