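import Pool.Agent.H.MP_87895e_lc.B

set_option autoImplicit false

namespace Pool.Agent.H.MP_87895e_lc

section
variable {σ τ : Fin 13 → Fin 5 → ℝ}

lemma core (h : St σ) (k : St τ) (v : Fin 13 → ℝ) :
    (∑ a, ∑ b, σ 0 a * τ 0 b * v (nx 0 a b) = σ 0 0 * v 2 + (1 - σ 0 0) * v 1) ∧
    (∑ a, ∑ b, σ 1 a * τ 1 b * v (nx 1 a b) = τ 1 0 * v 3 + (1 - τ 1 0) * v 0) := by
  have a0 := h.2 0; have a1 := h.2 1; have b0 := k.2 0; have b1 := k.2 1
  rw [Fin.sum_univ_five] at a0 a1 b0 b1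
  constructor
  · simp [Fin.sum_univ_five, nx_tb, tb]
    linear_combination (σ 0 0 * v 2 + (σ 0 1 + σ 0 2 + σ 0 3 + σ 0 4) * v 1) * b0 + v 1 * a0
  · simp [Fin.sum_univ_five, nx_tb, tb]
    linear_combination (τ 1 0 * v 3 + (τ 1 1 + τ 1 2 + τ 1 3 + τ 1 4) * v 0) * a1 + v 0 * b1

lemma abs0 (h : St σ) (k : St τ) (t s : Fin 13) (hs : s ≠ t) (ha : ∀ a b, nx s a b = s) :
    V nx {t} σ τ s = 0 :=
  le_antisymm (V_trap h k {s} (fun u hu => by rw [hu]; exact hs)
    (fun u hu a b => Or.inr (by rw [hu]; exact ha a b)) rfl) (V_nonneg h k s)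

lemma fixAll (h : St σ) (k : St τ) (t : Fin 13) (ha : ∀ a b, nx t a b = t) (s : Fin 13) :
    V nx {t} σ τ s = ∑ a, ∑ b, σ s a * τ s b * V nx {t} σ τ (nx s a b) := by
  by_cases hs : s = t
  · subst hs; simp only [ha]; rw [sum_const h k]
  · exact V_not h k hs

lemma dv {D n a b c : ℝ} (hD : D ≠ 0) (h : a * D = n * b + (D - n) * c) :
    a = n / D * b + (1 - n / D) * c := by
  field_simp; linarith

lemma toLim (h : St σ) (k : St τ) {ε : ℝ} (hε : 0 ≤ ε)
    (H1 : ∀ s σ', St σ' → V nx {10} σ' τ s ≤ V nx {10} σ τ s + ε)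
    (H2 : ∀ s τ', St τ' → V nx {11} σ τ' s ≤ V nx {11} σ τ s + ε) :
    ∃ p q, Lim σ τ (V nx {10} σ τ) (V nx {11} σ τ) p q ε := by
  have n10 : ∀ a b, nx 10 a b = 10 := by decide
  have n11 : ∀ a b, nx 11 a b = 11 := by decide
  have n12 : ∀ a b, nx 12 a b = 12 := by decide
  have fv := fixAll h k 10 n10
  have fw := fixAll h k 11 n11
  suffices ∃ p q : ℝ, 0 ≤ q ∧ q ≤ p ∧ p ≤ 1 ∧ (V nx {10} σ τ 0 = 0 ∨
      ((V nx {10} σ τ 0 = p * V nx {10} σ τ 2 + (1 - p) * V nx {10} σ τ 3 ∧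
        V nx {11} σ τ 0 = p * V nx {11} σ τ 2 + (1 - p) * V nx {11} σ τ 3 ∧
        V nx {10} σ τ 1 = q * V nx {10} σ τ 2 + (1 - q) * V nx {10} σ τ 3 ∧
        V nx {11} σ τ 1 = q * V nx {11} σ τ 2 + (1 - q) * V nx {11} σ τ 3) ∧
      (q = 1 ∨ p = 0 ∨ (V nx {10} σ τ 3 ≤ V nx {10} σ τ 0 + ε ∧
        V nx {11} σ τ 2 ≤ V nx {11} σ τ 1 + ε)))) by
    obtain ⟨p, q, a, b, c, d⟩ := this
    refine ⟨p, q, h.1, h.2, k.1, k.2, V_nonneg h k, V_nonneg h k, fun s => ?_, V_mem h k rfl,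
      V_mem h k rfl, abs0 h k _ _ (by decide) n12, abs0 h k _ _ (by decide) n12, fv, fw,
      fun s a => ?_, fun s a => ?_, a, b, c, d⟩
    · have := V_le (nx := nx) (T := {10}) h k (z := fun s => 1 - V nx {11} σ τ s)
        (fun s => sub_nonneg.2 (V_le_one h k s)) (fun s => by
          by_cases hs : s ∈ ({10} : Set (Fin 13))
          · rw [F_mem hs, show s = 10 from hs]
            simp only [abs0 h k 11 10 (by decide) n10, sub_zero, le_refl]
          · rw [F_not hs]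
            simp only [mul_sub, Finset.sum_sub_distrib]
            rw [sum_const h k, ← fw]) s
      linarith
    · by_cases hs : s = 10
      · subst hs; simp only [n10, ← Finset.sum_mul, k.2]; linarith
      · exact step1 (T := {10}) h k hε hs (H1 s) a
    · by_cases hs : s = 11
      · subst hs; simp only [n11, ← Finset.sum_mul, h.2]; linarith
      · exact step2 (T := {11}) h k hε hs (H2 s) a
  have x0 := h.1 0 0
  have y0 := k.1 1 0
  have x1 : σ 0 0 ≤ 1 := by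
    rw [← h.2 0]; exact Finset.single_le_sum (fun a _ => h.1 0 a) (Finset.mem_univ _)
  have y1 : τ 1 0 ≤ 1 := by
    rw [← k.2 1]; exact Finset.single_le_sum (fun a _ => k.1 1 a) (Finset.mem_univ _)
  have a0 := (fv 0).trans (core h k _).1
  have a1 := (fv 1).trans (core h k _).2
  have b0 := (fw 0).trans (core h k _).1
  have b1 := (fw 1).trans (core h k _).2
  by_cases hz : σ 0 0 = 0 ∧ τ 1 0 = 0
  · refine ⟨0, 0, le_rfl, le_rfl, zero_le_one, Or.inl (le_antisymm ?_ (V_nonneg h k _))⟩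
    refine V_trap h k {0, 1} (fun t ht => ?_) (fun t ht a b => ?_) (Or.inl rfl)
    · rcases ht with rfl | rfl <;> decide
    · rcases ht with rfl | rfl
      · by_cases ha : a = 0
        · left; rw [ha, hz.1, zero_mul]
        · right; right; simp [nx, ha]
      · by_cases ha : b = 0
        · left; rw [ha, hz.2, mul_zero]
        · right; left; simp [nx, ha]
  set x := σ 0 0 with hx
  set y := τ 1 0 with hy
  have hD : 0 < x + y - x * y := by
    rcases x0.eq_or_lt with e | e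
    · rcases y0.eq_or_lt with e' | e'
      · exact absurd ⟨e.symm, e'.symm⟩ hz
      · rw [← e]; linarith
    · nlinarith
  refine ⟨x / (x + y - x * y), (1 - y) * x / (x + y - x * y),
    div_nonneg (mul_nonneg (by linarith) x0) hD.le,
    div_le_div_of_nonneg_right (by nlinarith) hD.le, (div_le_one hD).2 (by nlinarith),
    Or.inr ⟨⟨?_, ?_, ?_, ?_⟩, ?_⟩⟩
  · exact dv hD.ne' (by linear_combination a0 + (1 - x) * a1)
  · exact dv hD.ne' (by linear_combination b0 + (1 - x) * b1)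
  · exact dv hD.ne' (by linear_combination a1 + (1 - y) * a0)
  · exact dv hD.ne' (by linear_combination b1 + (1 - y) * b0)
  rcases y0.eq_or_lt with e | yp
  · left; rw [div_eq_one_iff_eq hD.ne', ← e]; ring
  rcases x0.eq_or_lt with e | xp
  · right; left; rw [← e, zero_div]
  right; right
  constructor
  · by_contra hc
    push Not at hc
    have h' := dev_st h 0 1
    have d0 : dev σ 0 1 0 0 = 0 := by simp [dev]
    have im := improve (nx := nx) (T := {10}) h k h' k 0 (dev_ne σ 1) (fun _ _ => rfl)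
      (by rw [(core h' k _).1, d0]; nlinarith) 3
    have c0 := (fixAll h' k 10 n10 0).trans (core h' k _).1
    have c1 := (fixAll h' k 10 n10 1).trans (core h' k _).2
    rw [d0] at c0
    have := H1 0 _ h'
    have e : V nx {10} (dev σ 0 1) τ 0 = V nx {10} (dev σ 0 1) τ 3 := by
      apply mul_left_cancel₀ yp.ne'; linarith
    linarith
  · by_contra hc
    push Not at hc
    have k' := dev_st k 1 1
    have d0 : dev τ 1 1 1 0 = 0 := by simp [dev]
    have im := improve (nx := nx) (T := {11}) h k h k' 1 (fun _ _ => rfl) (dev_ne τ 1)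
      (by rw [(core h k' _).2, d0]; nlinarith) 2
    have c0 := (fixAll h k' 11 n11 0).trans (core h k' _).1
    have c1 := (fixAll h k' 11 n11 1).trans (core h k' _).2
    rw [d0] at c1
    have := H2 1 _ k'
    have e : V nx {11} σ (dev τ 1 1) 1 = V nx {11} σ (dev τ 1 1) 2 := by
      apply mul_left_cancel₀ xp.ne'; linarith
    linarith
end

abbrev Z := (Fin 13 → Fin 5 → ℝ) × (Fin 13 → Fin 5 → ℝ) × (Fin 13 → ℝ) × (Fin 13 → ℝ) × ℝ × ℝ

def LZ (z : Z) (ε : ℝ) : Prop := Lim z.1 z.2.1 z.2.2.1 z.2.2.2.1 z.2.2.2.2.1 z.2.2.2.2.2 ε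

lemma cand {X : Type} [TopologicalSpace X] {P Q : X → Prop} (h : IsClosed {x | P x})
    (k : IsClosed {x | Q x}) : IsClosed {x | P x ∧ Q x} := h.inter k

lemma cor {X : Type} [TopologicalSpace X] {P Q : X → Prop} (h : IsClosed {x | P x})
    (k : IsClosed {x | Q x}) : IsClosed {x | P x ∨ Q x} := h.union k

lemma lim_pass {z : ℕ → Z} {e : ℕ → ℝ} {y : Z} (hz : Filter.Tendsto z Filter.atTop (nhds y))
    (he : Filter.Tendsto e Filter.atTop (nhds 0)) (L : ∀ n, LZ (z n) (e n)) : LZ y 0 := by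
  have ht := hz.prodMk_nhds he
  have pass : ∀ P : Z × ℝ → Prop, IsClosed {x | P x} → (∀ n, P (z n, e n)) → P (y, 0) :=
    fun P hP h => hP.mem_of_tendsto ht (Filter.Eventually.of_forall h)
  have le : ∀ f g : Z × ℝ → ℝ, Continuous f → Continuous g → (∀ n, f (z n, e n) ≤ g (z n, e n)) →
      f (y, 0) ≤ g (y, 0) := fun f g hf hg h => pass _ (isClosed_le hf hg) h
  have eq : ∀ f g : Z × ℝ → ℝ, Continuous f → Continuous g → (∀ n, f (z n, e n) = g (z n, e n)) →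
      f (y, 0) = g (y, 0) := fun f g hf hg h => pass _ (isClosed_eq hf hg) h
  refine ⟨fun s a => le (fun _ => 0) (fun x => x.1.1 s a) (by fun_prop) (by fun_prop)
      fun n => (L n).s0 s a,
    fun s => eq (fun x => ∑ a, x.1.1 s a) (fun _ => 1) (by fun_prop) (by fun_prop)
      fun n => (L n).s1 s,
    fun s a => le (fun _ => 0) (fun x => x.1.2.1 s a) (by fun_prop) (by fun_prop)
      fun n => (L n).t0 s a,
    fun s => eq (fun x => ∑ a, x.1.2.1 s a) (fun _ => 1) (by fun_prop) (by fun_prop)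
      fun n => (L n).t1 s,
    fun s => le (fun _ => 0) (fun x => x.1.2.2.1 s) (by fun_prop) (by fun_prop)
      fun n => (L n).v0 s,
    fun s => le (fun _ => 0) (fun x => x.1.2.2.2.1 s) (by fun_prop) (by fun_prop)
      fun n => (L n).w0 s,
    fun s => le (fun x => x.1.2.2.1 s + x.1.2.2.2.1 s) (fun _ => 1) (by fun_prop) (by fun_prop)
      fun n => (L n).vw s,
    eq (fun x => x.1.2.2.1 10) (fun _ => 1) (by fun_prop) (by fun_prop) fun n => (L n).v10,
    eq (fun x => x.1.2.2.2.1 11) (fun _ => 1) (by fun_prop) (by fun_prop) fun n => (L n).w11,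
    eq (fun x => x.1.2.2.1 12) (fun _ => 0) (by fun_prop) (by fun_prop) fun n => (L n).v12,
    eq (fun x => x.1.2.2.2.1 12) (fun _ => 0) (by fun_prop) (by fun_prop) fun n => (L n).w12,
    fun s => eq (fun x => x.1.2.2.1 s)
      (fun x => ∑ a, ∑ b, x.1.1 s a * x.1.2.1 s b * x.1.2.2.1 (nx s a b))
      (by fun_prop) (by fun_prop) fun n => (L n).fv s,
    fun s => eq (fun x => x.1.2.2.2.1 s)
      (fun x => ∑ a, ∑ b, x.1.1 s a * x.1.2.1 s b * x.1.2.2.2.1 (nx s a b))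
      (by fun_prop) (by fun_prop) fun n => (L n).fw s,
    fun s a => le (fun x => ∑ b, x.1.2.1 s b * x.1.2.2.1 (nx s a b))
      (fun x => x.1.2.2.1 s + x.2) (by fun_prop) (by fun_prop) fun n => (L n).ov s a,
    fun s b => le (fun x => ∑ a, x.1.1 s a * x.1.2.2.2.1 (nx s a b))
      (fun x => x.1.2.2.2.1 s + x.2) (by fun_prop) (by fun_prop) fun n => (L n).ow s b,
    le (fun _ => 0) (fun x => x.1.2.2.2.2.2) (by fun_prop) (by fun_prop) fun n => (L n).q0,
    le (fun x => x.1.2.2.2.2.2) (fun x => x.1.2.2.2.2.1) (by fun_prop) (by fun_prop)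
      fun n => (L n).qp,
    le (fun x => x.1.2.2.2.2.1) (fun _ => 1) (by fun_prop) (by fun_prop) fun n => (L n).p1, ?_⟩
  refine pass (fun x => x.1.2.2.1 0 = 0 ∨
    ((x.1.2.2.1 0 = x.1.2.2.2.2.1 * x.1.2.2.1 2 + (1 - x.1.2.2.2.2.1) * x.1.2.2.1 3 ∧
      x.1.2.2.2.1 0 = x.1.2.2.2.2.1 * x.1.2.2.2.1 2 + (1 - x.1.2.2.2.2.1) * x.1.2.2.2.1 3 ∧
      x.1.2.2.1 1 = x.1.2.2.2.2.2 * x.1.2.2.1 2 + (1 - x.1.2.2.2.2.2) * x.1.2.2.1 3 ∧
      x.1.2.2.2.1 1 = x.1.2.2.2.2.2 * x.1.2.2.2.1 2 + (1 - x.1.2.2.2.2.2) * x.1.2.2.2.1 3) ∧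
    (x.1.2.2.2.2.2 = 1 ∨ x.1.2.2.2.2.1 = 0 ∨
      (x.1.2.2.1 3 ≤ x.1.2.2.1 0 + x.2 ∧ x.1.2.2.2.1 2 ≤ x.1.2.2.2.1 1 + x.2)))) ?_
    fun n => (L n).cs
  refine cor ?_ (cand (cand ?_ (cand ?_ (cand ?_ ?_))) (cor ?_ (cor ?_ (cand ?_ ?_))))
  all_goals first
    | exact isClosed_eq (by fun_prop) (by fun_prop)
    | exact isClosed_le (by fun_prop) (by fun_prop)

lemma LZ_mem {z : Z} {ε : ℝ} (L : LZ z ε) : z ∈ Set.Icc (0 : Z) 1 := by
  refine ⟨⟨fun s a => L.s0 s a, fun s a => L.t0 s a, fun s => L.v0 s, fun s => L.w0 s,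
    L.q0.trans L.qp, L.q0⟩, fun s a => ?_, fun s a => ?_, fun s => ?_, fun s => ?_, L.p1,
    L.qp.trans L.p1⟩
  · exact (Finset.single_le_sum (fun a _ => L.s0 s a) (Finset.mem_univ _)).trans (L.s1 s).le
  · exact (Finset.single_le_sum (fun a _ => L.t0 s a) (Finset.mem_univ _)).trans (L.t1 s).le
  · have := L.vw s; have := L.w0 s
    show z.2.2.1 s ≤ 1
    linarith
  · have := L.vw s; have := L.v0 s
    show z.2.2.2.1 s ≤ 1
    linarith

theorem main (H : ∀ ε : ℝ, 0 < ε → ∃ σ τ : Fin 13 → Fin 5 → ℝ, St σ ∧ St τ ∧ ∀ s,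
    (∀ σ', St σ' → V nx {10} σ' τ s ≤ V nx {10} σ τ s + ε) ∧
    (∀ τ', St τ' → V nx {11} σ τ' s ≤ V nx {11} σ τ s + ε)) : False := by
  have : ∀ n : ℕ, ∃ z : Z, LZ z (1 / ((n : ℝ) + 1)) := by
    intro n
    obtain ⟨σ, τ, h, k, H⟩ := H _ (Nat.one_div_pos_of_nat (n := n))
    obtain ⟨p, q, L⟩ := toLim h k (Nat.one_div_pos_of_nat (n := n)).le (fun s => (H s).1)
      (fun s => (H s).2)
    exact ⟨(σ, τ, _, _, p, q), L⟩
  choose z hz using this
  obtain ⟨y, -, φ, hφ, ht⟩ := (isCompact_Icc (a := (0 : Z)) (b := 1)).tendsto_subseq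
    fun n => LZ_mem (hz n)
  exact Lim.false (lim_pass ht
    (tendsto_one_div_add_atTop_nhds_zero_nat.comp hφ.tendsto_atTop) fun n => hz (φ n))

end Pool.Agent.H.MP_87895e_lc
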